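import Mathlib

namespace Pool.Agent.Grass

/-- The inversions of a permutation `w` of `{0, …, n-1}`. -/
def invSet {n : ℕ} (w : Equiv.Perm (Fin n)) : Finset (Fin n × Fin n) :=
  Finset.univ.filter fun p => p.1 < p.2 ∧ w p.2 < w p.1

/-- The length `ℓ(w)`, the number of inversions. -/
def len {n : ℕ} (w : Equiv.Perm (Fin n)) : ℕ := (invSet w).card

/-- The sum, over all words of length `m` in the adjacent transpositions `(i i+1)` whose product is
`w`, of the product of the letters (letters are counted from `1`). -/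
def wordSum (n m : ℕ) (w : Equiv.Perm (Fin n)) : ℚ :=
  ∑ a ∈ (Finset.univ : Finset (Fin m → Fin n × Fin n)).filter
      (fun a => (∀ i, (a i).2.val = (a i).1.val + 1) ∧
        (List.ofFn (fun i => Equiv.swap (a i).1 (a i).2)).prod = w),
    ∏ i, (((a i).1.val : ℚ) + 1)

/-- `Υ_w`, the principal evaluation of the Schubert polynomial of `w`, in Macdonald's form:
`Υ_w = (1 / ℓ!) ∑ a_1 a_2 ⋯ a_ℓ`, the sum over the reduced words `a_1 ⋯ a_ℓ` of `w`,
`ℓ = ℓ(w)`. -/
def Upsilon (n : ℕ) (w : Equiv.Perm (Fin n)) : ℚ := wordSum n (len w) w / ((len w).factorial : ℚ)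

/-- `w ⊗ 1^k`. -/
def kron {n : ℕ} (w : Equiv.Perm (Fin n)) (k : ℕ) : Equiv.Perm (Fin (n * k)) :=
  Equiv.permCongr finProdFinEquiv (Equiv.prodCongr w (Equiv.refl (Fin k)))

/-- `w` is Grassmannian with its only possible descent at position `d`: it is increasing on the
first `d` positions and on the other positions. -/
def IsGr {n : ℕ} (d : ℕ) (w : Equiv.Perm (Fin n)) : Prop :=
  (∀ x y : Fin n, x < y → y.val < d → w x < w y) ∧
    (∀ x y : Fin n, x < y → d ≤ x.val → w x < w y)

end Pool.Agent.Grass
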