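import Mathlib

namespace Pool.Agent.Grass

open Matrix Finset

lemma vander_key (d : ℕ) (l : Fin d → ℚ) :
    ∑ r, l r * (vandermonde (Function.update l r (l r - 1))).det =
      (∑ r, l r - ∑ j : Fin d, ((j : ℕ) : ℚ)) * (vandermonde l).det := by
  classical
  have hdet : ∀ x : Fin d → ℚ, (vandermonde x).det =
      (Matrix.of fun i j : Fin d => ((descPochhammer ℚ (j : ℕ)).eval (x i))).det := fun x =>
    det_eval_matrixOfPolynomials_eq_det_vandermonde x (fun j => descPochhammer ℚ (j : ℕ))
      (fun i => descPochhammer_natDegree ℚ i) (fun i => monic_descPochhammer ℚ i)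
  set M : Matrix (Fin d) (Fin d) ℚ := Matrix.of fun i j : Fin d =>
    ((descPochhammer ℚ (j : ℕ)).eval (l i)) with hM
  have hstep : ∀ r, l r * (vandermonde (Function.update l r (l r - 1))).det =
      ∑ σ : Equiv.Perm (Fin d), ((Equiv.Perm.sign σ : ℤ) : ℚ) * (∏ i, M (σ i) i) *
        (l r - ((σ⁻¹ r : Fin d) : ℕ)) := by
    intro r
    have h1 : (Matrix.of fun i j : Fin d =>
        ((descPochhammer ℚ (j : ℕ)).eval (Function.update l r (l r - 1) i))) =
        M.updateRow r (fun j => (descPochhammer ℚ (j : ℕ)).eval (l r - 1)) := by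
      ext i j
      by_cases h : i = r
      · subst h
        simp
      · simp [hM, h, Function.update_of_ne h, Matrix.updateRow_ne h]
    have h2 : l r * (M.updateRow r (fun j => (descPochhammer ℚ (j : ℕ)).eval (l r - 1))).det =
        (M.updateRow r (fun j => M r j * (l r - ((j : ℕ) : ℚ)))).det := by
      rw [← Matrix.det_updateRow_smul]
      congr 2
      funext j
      rw [hM]
      simp only [Pi.smul_apply, smul_eq_mul, Matrix.of_apply]
      rw [← descPochhammer_succ_eval, descPochhammer_succ_left]
      simp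
    rw [hdet, h1, h2, det_apply']
    refine Finset.sum_congr rfl fun σ _ => ?_
    rw [mul_assoc]
    congr 1
    have h3 : ∀ i, (M.updateRow r (fun j => M r j * (l r - ((j : ℕ) : ℚ)))) (σ i) i =
        M (σ i) i * (if i = σ⁻¹ r then (l r - ((i : ℕ) : ℚ)) else 1) := by
      intro i
      by_cases h : σ i = r
      · have h' : i = σ⁻¹ r := by rw [← h]; simp
        rw [if_pos h', h, Matrix.updateRow_self]
      · have h' : i ≠ σ⁻¹ r := by
          intro h''
          apply h
          rw [h'']
          simp
        rw [if_neg h', Matrix.updateRow_ne h, mul_one]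
    rw [Finset.prod_congr rfl fun i _ => h3 i, Finset.prod_mul_distrib]
    congr 1
    rw [Finset.prod_ite_eq' Finset.univ (σ⁻¹ r) (fun i : Fin d => (l r - ((i : ℕ) : ℚ)))]
    simp
  rw [Finset.sum_congr rfl fun r _ => hstep r, Finset.sum_comm, hdet l, det_apply',
    Finset.mul_sum]
  refine Finset.sum_congr rfl fun σ _ => ?_
  rw [← Finset.mul_sum, Finset.sum_sub_distrib,
    Equiv.sum_comp (σ⁻¹) (fun j : Fin d => ((j : ℕ) : ℚ)), mul_comm]

end Pool.Agent.Grass
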