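import Mathlib
import Pool.Agent.Grass.Defs

namespace Pool.Agent.Grass

open Finset

variable {n : ℕ}

/-- the predecessor of a value -/
def pr (v : Fin n) : Fin n := ⟨v.val - 1, by omega⟩

lemma swap_lt {v v' : Fin n} (hv : v'.val = v.val + 1) {a b : Fin n} (hab : a < b)
    (hne : ¬ (a = v ∧ b = v')) : Equiv.swap v v' a < Equiv.swap v v' b := by
  rw [Equiv.swap_apply_def, Equiv.swap_apply_def]
  have h1 : a.val < b.val := hab
  have hne' : ¬ (a.val = v.val ∧ b.val = v'.val) := fun h => hne ⟨Fin.ext h.1, Fin.ext h.2⟩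
  split_ifs with h2 h3 h4 h5 h6 h7 h8 <;> simp only [Fin.lt_def, Fin.ext_iff] at * <;> omega

lemma len_swap_of_inverted {v v' : Fin n} (hv : v'.val = v.val + 1) {w : Equiv.Perm (Fin n)}
    (h : w⁻¹ v' < w⁻¹ v) : len w = len (Equiv.swap v v' * w) + 1 := by
  classical
  unfold len
  have hvv : v < v' := by rw [Fin.lt_def]; omega
  have hnot : (w⁻¹ v', w⁻¹ v) ∉ invSet (Equiv.swap v v' * w) := by
    unfold invSet
    simp only [Finset.mem_filter, Finset.mem_univ, true_and, Equiv.Perm.mul_apply]
    intro hc
    have hc2 := hc.2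
    rw [show w (w⁻¹ v) = v from w.apply_symm_apply v,
      show w (w⁻¹ v') = v' from w.apply_symm_apply v', Equiv.swap_apply_left,
      Equiv.swap_apply_right] at hc2
    exact absurd hc2 (not_lt.mpr hvv.le)
  rw [← Finset.card_insert_of_notMem hnot]
  congr 1
  ext ⟨a, b⟩
  unfold invSet
  simp only [Finset.mem_filter, Finset.mem_univ, true_and, Equiv.Perm.mul_apply,
    Finset.mem_insert, Prod.mk.injEq]
  constructor
  · rintro ⟨hab, hw⟩
    by_cases hc : w b = v ∧ w a = v'
    · left
      rw [← hc.1, ← hc.2]
      simp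
    · right
      exact ⟨hab, swap_lt hv hw hc⟩
  · rintro (⟨rfl, rfl⟩ | ⟨hab, hw⟩)
    · refine ⟨h, ?_⟩
      simpa using hvv
    · refine ⟨hab, ?_⟩
      have h1 : ¬ (Equiv.swap v v' (w b) = v ∧ Equiv.swap v v' (w a) = v') := by
        rintro ⟨h2, h3⟩
        have h4 : w b = v' := by
          have := congrArg (Equiv.swap v v') h2
          simpa using this
        have h5 : w a = v := by
          have := congrArg (Equiv.swap v v') h3
          simpa using this
        have h6 : b < a := by
          have : w⁻¹ (w b) < w⁻¹ (w a) := by rw [h4, h5]; exact h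
          simpa using this
        exact absurd hab (not_lt.mpr h6.le)
      have := swap_lt hv hw h1
      simpa using this

lemma len_swap_of_not_inverted {v v' : Fin n} (hv : v'.val = v.val + 1) {w : Equiv.Perm (Fin n)}
    (h : w⁻¹ v < w⁻¹ v') : len (Equiv.swap v v' * w) = len w + 1 := by
  have h1 := len_swap_of_inverted (w := Equiv.swap v v' * w) hv (by
    rw [mul_inv_rev, Equiv.swap_inv, Equiv.Perm.mul_apply, Equiv.Perm.mul_apply,
      Equiv.swap_apply_left, Equiv.swap_apply_right]
    exact h)
  rw [← mul_assoc, Equiv.swap_mul_self, one_mul] at h1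
  exact h1

lemma wordSum_zero (w : Equiv.Perm (Fin n)) : wordSum n 0 w = if 1 = w then 1 else 0 := by
  classical
  unfold wordSum
  rw [Finset.sum_filter]
  simp

lemma wordSum_succ' (m : ℕ) (w : Equiv.Perm (Fin n)) :
    wordSum n (m + 1) w = ∑ p : Fin n × Fin n, if p.2.val = p.1.val + 1 then
      ((p.1.val : ℚ) + 1) * wordSum n m (Equiv.swap p.1 p.2 * w) else 0 := by
  classical
  unfold wordSum
  rw [Finset.sum_filter, ← (Fin.consEquiv fun _ : Fin (m + 1) => Fin n × Fin n).sum_comp,
    Fintype.sum_prod_type]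
  refine Finset.sum_congr rfl fun p _ => ?_
  split_ifs with hp
  · rw [Finset.mul_sum, Finset.sum_filter]
    refine Finset.sum_congr rfl fun a _ => ?_
    simp only [Fin.consEquiv_apply, Fin.forall_fin_succ, Fin.cons_zero, Fin.cons_succ,
      List.ofFn_succ, List.prod_cons, Fin.prod_univ_succ]
    have h1 : (Equiv.swap p.1 p.2 * (List.ofFn fun i => Equiv.swap (a i).1 (a i).2).prod = w) ↔
        ((List.ofFn fun i => Equiv.swap (a i).1 (a i).2).prod = Equiv.swap p.1 p.2 * w) := by
      constructor
      · intro h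
        rw [← h, ← mul_assoc, Equiv.swap_mul_self, one_mul]
      · intro h
        rw [h, ← mul_assoc, Equiv.swap_mul_self, one_mul]
    by_cases h2 : (∀ i, (a i).2.val = (a i).1.val + 1) ∧
        (List.ofFn fun i => Equiv.swap (a i).1 (a i).2).prod = Equiv.swap p.1 p.2 * w
    · rw [if_pos ⟨⟨hp, h2.1⟩, h1.mpr h2.2⟩, if_pos h2]
    · rw [if_neg h2, if_neg fun h => h2 ⟨h.1.2, h1.mp h.2⟩]
  · refine Finset.sum_eq_zero fun a _ => ?_
    rw [if_neg]
    intro h
    apply hp
    have := h.1 0
    simpa using this

lemma wordSum_succ (m : ℕ) (w : Equiv.Perm (Fin n)) :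
    wordSum n (m + 1) w = ∑ x : Fin n,
      ((w x).val : ℚ) * wordSum n m (Equiv.swap (pr (w x)) (w x) * w) := by
  classical
  rw [wordSum_succ', Fintype.sum_prod_type_right,
    Equiv.sum_comp w (fun v : Fin n =>
      (v.val : ℚ) * wordSum n m (Equiv.swap (pr v) v * w))]
  refine Finset.sum_congr rfl fun v _ => ?_
  rcases Nat.eq_zero_or_pos v.val with h0 | h0
  · rw [h0, Nat.cast_zero, zero_mul]
    refine Finset.sum_eq_zero fun a _ => ?_
    simp only
    rw [if_neg (by omega)]
  · rw [Finset.sum_eq_single (pr v)]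
    · simp only [pr]
      rw [if_pos (by omega)]
      congr 1
      have : ((v.val - 1 : ℕ) : ℚ) + 1 = ((v.val - 1 + 1 : ℕ) : ℚ) := by push_cast; ring
      rw [this]
      congr 1
      omega
    · intro a _ ha
      simp only
      rw [if_neg]
      intro h
      apply ha
      apply Fin.ext
      simp only [pr]
      omega
    · intro h
      exact absurd (Finset.mem_univ _) h

lemma len_one : len (1 : Equiv.Perm (Fin n)) = 0 := by
  classical
  unfold len invSet
  rw [Finset.card_eq_zero, Finset.filter_eq_empty_iff]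
  rintro ⟨a, b⟩ _ ⟨h1, h2⟩
  simp only [Equiv.Perm.one_apply] at h1 h2
  exact absurd h1 (not_lt.mpr h2.le)

lemma eq_one_of_len {w : Equiv.Perm (Fin n)} (h : len w = 0) : w = 1 := by
  classical
  unfold len invSet at h
  rw [Finset.card_eq_zero, Finset.filter_eq_empty_iff] at h
  have hmono : StrictMono w := by
    intro a b hab
    have h1 := h (x := (a, b)) (Finset.mem_univ _)
    simp only [not_and, not_lt] at h1
    exact lt_of_le_of_ne (h1 hab) fun h2 => absurd (w.injective h2) hab.ne
  let e : Fin n ≃o Fin n := StrictMono.orderIsoOfSurjective w hmono w.surjective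
  have : e = OrderIso.refl _ := Subsingleton.elim _ _
  ext x
  have h2 : e x = x := by rw [this]; rfl
  have h3 : w x = x := h2
  rw [h3]
  rfl

lemma wordSum_eq_zero {m : ℕ} : ∀ w : Equiv.Perm (Fin n), m < len w → wordSum n m w = 0 := by
  classical
  induction m with
  | zero =>
    intro w h
    rw [wordSum_zero, if_neg]
    rintro rfl
    rw [len_one] at h
    exact absurd h (lt_irrefl _)
  | succ m ih =>
    intro w h
    rw [wordSum_succ]
    refine Finset.sum_eq_zero fun x _ => ?_
    rcases Nat.eq_zero_or_pos (w x).val with h0 | h0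
    · rw [h0, Nat.cast_zero, zero_mul]
    · have hv : (w x).val = (pr (w x)).val + 1 := by
        simp only [pr]
        omega
      have : m < len (Equiv.swap (pr (w x)) (w x) * w) := by
        rcases lt_trichotomy (w⁻¹ (pr (w x))) (w⁻¹ (w x)) with h1 | h1 | h1
        · have := len_swap_of_not_inverted hv h1
          omega
        · have h2 := w⁻¹.injective h1
          have h3 := congrArg Fin.val h2
          omega
        · have := len_swap_of_inverted hv h1
          omega
      rw [ih _ this, mul_zero]

end Pool.Agent.Grass
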