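import Mathlib
import Pool.Agent.Grass.Words
import Pool.Agent.Grass.Vander

namespace Pool.Agent.Grass

open Finset Matrix

variable {n d : ℕ}

/-- the values of `w` on the first `d` positions -/
def vals (hd : d ≤ n) (w : Equiv.Perm (Fin n)) : Fin d → ℚ :=
  fun i => ((w (Fin.castLE hd i)).val : ℚ)

lemma vander0_ne (d : ℕ) : (vandermonde (fun i : Fin d => ((i : ℕ) : ℚ))).det ≠ 0 := by
  rw [det_vandermonde_ne_zero_iff]
  intro a b h
  have h' : ((a : ℕ) : ℚ) = ((b : ℕ) : ℚ) := h
  exact Fin.ext (by exact_mod_cast h')

lemma len_formula (hd : d ≤ n) {w : Equiv.Perm (Fin n)} (hw : IsGr d w) :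
    ((len w : ℕ) : ℚ) = ∑ r, vals hd w r - ∑ j : Fin d, ((j : ℕ) : ℚ) := by
  classical
  have h1 : len w = ∑ x : Fin n, (univ.filter fun y : Fin n => x < y ∧ w y < w x).card := by
    unfold len invSet
    rw [Finset.card_filter, Fintype.sum_prod_type]
    refine Finset.sum_congr rfl fun x _ => ?_
    rw [Finset.card_filter]
  have h2 : ∑ r : Fin d, (univ.filter fun y : Fin n =>
      Fin.castLE hd r < y ∧ w y < w (Fin.castLE hd r)).card =
      ∑ x : Fin n, (univ.filter fun y : Fin n => x < y ∧ w y < w x).card := by
    refine Fintype.sum_of_injective (Fin.castLE hd) (Fin.castLE_injective hd) _ _ ?_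
      (fun i => rfl)
    intro x hx
    have hx' : d ≤ x.val := by
      by_contra hlt
      push Not at hlt
      exact hx ⟨⟨x.val, hlt⟩, Fin.ext rfl⟩
    rw [Finset.card_eq_zero, Finset.filter_eq_empty_iff]
    rintro y _ ⟨hy, hwy⟩
    exact absurd (hw.2 x y hy hx') (not_lt.mpr hwy.le)
  have h3 : ∀ r : Fin d, (univ.filter fun y : Fin n =>
      Fin.castLE hd r < y ∧ w y < w (Fin.castLE hd r)).card + (r : ℕ) =
      (w (Fin.castLE hd r)).val := by
    intro r
    have h4 : (univ.filter fun y : Fin n => w y < w (Fin.castLE hd r)).card =
        (w (Fin.castLE hd r)).val := by
      have : (univ.filter fun y : Fin n => w y < w (Fin.castLE hd r)) =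
          (Finset.Iio (w (Fin.castLE hd r))).map w.symm.toEmbedding := by
        ext y
        simp only [Finset.mem_filter, Finset.mem_univ, true_and, Finset.mem_map_equiv,
          Equiv.symm_symm, Finset.mem_Iio]
      rw [this, Finset.card_map, Fin.card_Iio]
    have h5 : (univ.filter fun y : Fin n => w y < w (Fin.castLE hd r)) =
        (univ.filter fun y : Fin n => Fin.castLE hd r < y ∧ w y < w (Fin.castLE hd r)) ∪
          Finset.Iio (Fin.castLE hd r) := by
      ext y
      simp only [Finset.mem_filter, Finset.mem_univ, true_and, Finset.mem_union, Finset.mem_Iio]
      constructor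
      · intro h
        rcases lt_trichotomy y (Fin.castLE hd r) with h6 | h6 | h6
        · exact Or.inr h6
        · rw [h6] at h
          exact absurd h (lt_irrefl _)
        · exact Or.inl ⟨h6, h⟩
      · rintro (h | h)
        · exact h.2
        · exact hw.1 y _ h (by simp)
    have h6 : Disjoint (univ.filter fun y : Fin n =>
        Fin.castLE hd r < y ∧ w y < w (Fin.castLE hd r)) (Finset.Iio (Fin.castLE hd r)) := by
      rw [Finset.disjoint_left]
      intro y hy hy'
      simp only [Finset.mem_filter, Finset.mem_univ, true_and, Finset.mem_Iio] at hy hy'
      exact absurd hy.1 (not_lt.mpr hy'.le)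
    rw [← h4, h5, Finset.card_union_of_disjoint h6, Fin.card_Iio]
    simp
  have h7 : len w + ∑ r : Fin d, (r : ℕ) = ∑ r : Fin d, (w (Fin.castLE hd r)).val := by
    rw [h1, ← h2, ← Finset.sum_add_distrib]
    exact Finset.sum_congr rfl fun r _ => h3 r
  have h8 : ((len w : ℕ) : ℚ) + ∑ r : Fin d, ((r : ℕ) : ℚ) =
      ∑ r : Fin d, ((w (Fin.castLE hd r)).val : ℚ) := by exact_mod_cast h7
  unfold vals
  linarith

theorem wordSum_gr (hd : d ≤ n) {m : ℕ} : ∀ w : Equiv.Perm (Fin n), IsGr d w → len w = m →
    wordSum n m w = (m.factorial : ℚ) * ((vandermonde (vals hd w)).det /
      (vandermonde (fun i : Fin d => ((i : ℕ) : ℚ))).det) := by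
  classical
  induction m with
  | zero =>
    intro w hw hlen
    have h1 := eq_one_of_len hlen
    subst h1
    rw [wordSum_zero, if_pos rfl]
    have : vals hd (1 : Equiv.Perm (Fin n)) = fun i : Fin d => ((i : ℕ) : ℚ) := by
      funext i
      simp [vals]
    rw [this, div_self (vander0_ne d)]
    simp
  | succ m ih =>
    intro w hw hlen
    have hkey := vander_key d (vals hd w)
    rw [← len_formula hd hw, hlen] at hkey
    rw [wordSum_succ]
    have hterm : ∑ r : Fin d, (vals hd w r * ((m.factorial : ℚ) *
        ((vandermonde (Function.update (vals hd w) r (vals hd w r - 1))).det /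
          (vandermonde (fun i : Fin d => ((i : ℕ) : ℚ))).det))) =
        ∑ x : Fin n, ((w x).val : ℚ) * wordSum n m (Equiv.swap (pr (w x)) (w x) * w) := by
      refine Fintype.sum_of_injective (Fin.castLE hd) (Fin.castLE_injective hd) _ _ ?_ ?_
      · intro x hx
        have hx' : d ≤ x.val := by
          by_contra hlt
          push Not at hlt
          exact hx ⟨⟨x.val, hlt⟩, Fin.ext rfl⟩
        rcases Nat.eq_zero_or_pos (w x).val with h0 | h0
        · rw [h0, Nat.cast_zero, zero_mul]
        · have hv : (w x).val = (pr (w x)).val + 1 := by
            simp only [pr]
            omega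
          have hwx : w⁻¹ (w x) = x := w.symm_apply_apply x
          have hwy : w (w⁻¹ (pr (w x))) = pr (w x) := w.apply_symm_apply _
          rcases lt_trichotomy (w⁻¹ (pr (w x))) x with h1 | h1 | h1
          · have := len_swap_of_not_inverted hv (w := w) (by rw [hwx]; exact h1)
            rw [wordSum_eq_zero _ (by omega), mul_zero]
          · rw [h1] at hwy
            have := congrArg Fin.val hwy
            omega
          · have h2 := hw.2 x _ h1 hx'
            rw [hwy, Fin.lt_def] at h2
            omega
      · intro r
        set x := Fin.castLE hd r with hx
        have hxd : x.val < d := by simp [hx]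
        have hvr : vals hd w r = ((w x).val : ℚ) := rfl
        rcases Nat.eq_zero_or_pos (w x).val with h0 | h0
        · rw [hvr, h0, Nat.cast_zero, zero_mul, zero_mul]
        · have hv : (w x).val = (pr (w x)).val + 1 := by
            simp only [pr]
            omega
          have hwx : w⁻¹ (w x) = x := w.symm_apply_apply x
          have hwy : w (w⁻¹ (pr (w x))) = pr (w x) := w.apply_symm_apply _
          set y := w⁻¹ (pr (w x)) with hy
          have hcast : ((w x).val : ℚ) - 1 = ((pr (w x)).val : ℚ) := by
            rw [hv]
            push_cast
            ring
          have hyx : y ≠ x := by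
            intro h
            rw [h] at hwy
            have := congrArg Fin.val hwy
            omega
          rw [hvr]
          congr 1
          rcases Nat.lt_or_ge y.val d with hyd | hyd
          · -- the determinant vanishes, and so does the word sum
            have hlt : y < x := by
              rcases lt_trichotomy y x with h1 | h1 | h1
              · exact h1
              · exact absurd h1 hyx
              · have h2 := hw.1 x y h1 hyd
                rw [hwy, Fin.lt_def] at h2
                omega
            have := len_swap_of_not_inverted hv (w := w) (by rw [hwx, ← hy]; exact hlt)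
            rw [wordSum_eq_zero _ (by omega)]
            have hdet : (vandermonde (Function.update (vals hd w) r (((w x).val : ℚ) - 1))).det
                = 0 := by
              rw [det_vandermonde_eq_zero_iff]
              refine ⟨⟨y.val, hyd⟩, r, ?_, ?_⟩
              · have hne : (⟨y.val, hyd⟩ : Fin d) ≠ r := by
                  intro h
                  apply hyx
                  rw [hx, ← h]
                  exact Fin.ext rfl
                rw [Function.update_of_ne hne, Function.update_self, hcast, ← hwy]
                rfl
              · intro h
                apply hyx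
                rw [hx, ← h]
                exact Fin.ext rfl
            rw [hdet, zero_div, mul_zero]
          · -- a genuine inversion
            have hxy : x < y := by rw [Fin.lt_def]; omega
            have hl := len_swap_of_inverted hv (w := w) (by rw [hwx, ← hy]; exact hxy)
            have hwne : ∀ a, w a = pr (w x) → a = y := by
              intro a ha
              rw [hy, ← ha]
              exact (w.symm_apply_apply a).symm
            have hwne' : ∀ a, w a = w x → a = x := fun a ha => w.injective ha
            have hgr : IsGr d (Equiv.swap (pr (w x)) (w x) * w) := by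
              constructor
              · intro a b hab hb
                refine swap_lt hv (hw.1 a b hab hb) ?_
                rintro ⟨h1, -⟩
                have := hwne a h1
                subst this
                have : y.val < b.val := hab
                omega
              · intro a b hab ha
                refine swap_lt hv (hw.2 a b hab ha) ?_
                rintro ⟨-, h1⟩
                have := hwne' b h1
                subst this
                have : a.val < x.val := hab
                omega
            rw [ih _ hgr (by omega)]
            have hupd : Function.update (vals hd w) r (((w x).val : ℚ) - 1) =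
                vals hd (Equiv.swap (pr (w x)) (w x) * w) := by
             funext i
             by_cases hi : i = r
             · subst hi
               rw [Function.update_self, hcast]
               simp only [vals, Equiv.Perm.mul_apply]
               rw [← hx, Equiv.swap_apply_right]
             · rw [Function.update_of_ne hi]
               simp only [vals, Equiv.Perm.mul_apply]
               rw [Equiv.swap_apply_of_ne_of_ne]
               · intro h
                 have h1 := hwne _ h
                 have h2 : (Fin.castLE hd i).val < d := by simp
                 rw [h1] at h2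
                 omega
               · intro h
                 have h1 := hwne' _ h
                 apply hi
                 exact Fin.castLE_injective hd h1
            rw [hupd]
    rw [← hterm]
    have hfac : ∑ r : Fin d, (vals hd w r * ((m.factorial : ℚ) *
        ((vandermonde (Function.update (vals hd w) r (vals hd w r - 1))).det /
          (vandermonde (fun i : Fin d => ((i : ℕ) : ℚ))).det))) =
        (m.factorial : ℚ) / (vandermonde (fun i : Fin d => ((i : ℕ) : ℚ))).det *
        ∑ r, vals hd w r *
          (vandermonde (Function.update (vals hd w) r (vals hd w r - 1))).det := by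
      rw [Finset.mul_sum]
      refine Finset.sum_congr rfl fun r _ => ?_
      ring
    rw [hfac, hkey, Nat.factorial_succ]
    push_cast
    ring

theorem Upsilon_gr (hd : d ≤ n) {w : Equiv.Perm (Fin n)} (hw : IsGr d w) :
    Upsilon n w = (vandermonde (vals hd w)).det /
      (vandermonde (fun i : Fin d => ((i : ℕ) : ℚ))).det := by
  unfold Upsilon
  rw [wordSum_gr hd w hw rfl]
  have : ((len w).factorial : ℚ) ≠ 0 := by exact_mod_cast (Nat.factorial_pos _).ne'
  field_simp

end Pool.Agent.Grass
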