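import Mathlib
import Pool.Agent.Grass.Formula

namespace Pool.Agent.Grass

open Finset Matrix

variable {n d : ℕ}

lemma ratio_prod {D : ℕ} (l : Fin D → ℚ) :
    (vandermonde l).det / (vandermonde (fun i : Fin D => ((i : ℕ) : ℚ))).det =
      ∏ i : Fin D, ∏ j : Fin D,
        if i < j then (l j - l i) / (((j : ℕ) : ℚ) - ((i : ℕ) : ℚ)) else 1 := by
  classical
  rw [det_vandermonde, det_vandermonde, ← Finset.prod_div_distrib]
  refine Finset.prod_congr rfl fun i _ => ?_
  rw [← Finset.prod_div_distrib, ← Finset.prod_filter]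
  refine Finset.prod_congr ?_ fun _ _ => rfl
  ext j
  simp

lemma sq_prod {k : ℕ} (X : ℚ) :
    (∏ a : Fin k, ∏ b : Fin k, ((k : ℚ) * X + ((b : ℕ) : ℚ) - ((a : ℕ) : ℚ))) ^ 2 =
      ∏ a : Fin k, ∏ b : Fin k,
        ((k : ℚ) ^ 2 * X ^ 2 - (((b : ℕ) : ℚ) - ((a : ℕ) : ℚ)) ^ 2) := by
  rw [sq]
  nth_rewrite 2 [Finset.prod_comm]
  rw [← Finset.prod_mul_distrib]
  refine Finset.prod_congr rfl fun a _ => ?_
  rw [← Finset.prod_mul_distrib]
  refine Finset.prod_congr rfl fun b _ => ?_
  ring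

lemma const_prod {k : ℕ} (X : ℚ) : X ^ (k ^ 2) = ∏ _a : Fin k, ∏ _b : Fin k, X := by
  simp [sq, pow_mul]

lemma factor_pos {k : ℕ} {X : ℚ} (hX : 1 ≤ X) (a b : Fin k) :
    0 < (k : ℚ) * X + ((b : ℕ) : ℚ) - ((a : ℕ) : ℚ) := by
  have h1 : ((a : ℕ) : ℚ) + 1 ≤ (k : ℚ) := by exact_mod_cast a.2
  have h2 : (0 : ℚ) ≤ ((b : ℕ) : ℚ) := by positivity
  have h3 : (0 : ℚ) ≤ (k : ℚ) := by positivity
  nlinarith

lemma pair_ineq {k : ℕ} {L M : ℚ} (hM : 1 ≤ M) (hML : M ≤ L) :
    (L / M) ^ (k ^ 2) ≤ ∏ a : Fin k, ∏ b : Fin k,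
      (((k : ℚ) * L + ((b : ℕ) : ℚ) - ((a : ℕ) : ℚ)) /
        ((k : ℚ) * M + ((b : ℕ) : ℚ) - ((a : ℕ) : ℚ))) := by
  have hL : 1 ≤ L := hM.trans hML
  have hPM : 0 < ∏ a : Fin k, ∏ b : Fin k,
      ((k : ℚ) * M + ((b : ℕ) : ℚ) - ((a : ℕ) : ℚ)) :=
    Finset.prod_pos fun a _ => Finset.prod_pos fun b _ => factor_pos hM a b
  have hPL : 0 < ∏ a : Fin k, ∏ b : Fin k,
      ((k : ℚ) * L + ((b : ℕ) : ℚ) - ((a : ℕ) : ℚ)) :=
    Finset.prod_pos fun a _ => Finset.prod_pos fun b _ => factor_pos hL a b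
  have hMk : 0 < M ^ (k ^ 2) := by positivity
  simp only [Finset.prod_div_distrib]
  rw [div_pow, div_le_div_iff₀ hMk hPM,
    ← sq_le_sq₀ (by positivity) (by positivity), mul_pow, mul_pow, sq_prod, sq_prod,
    ← pow_mul, ← pow_mul, mul_comm (k ^ 2) 2, pow_mul, pow_mul, const_prod (L ^ 2),
    const_prod (M ^ 2), ← Finset.prod_mul_distrib, ← Finset.prod_mul_distrib]
  have hnn : ∀ a b : Fin k, 0 ≤ (k : ℚ) ^ 2 * M ^ 2 - (((b : ℕ) : ℚ) - ((a : ℕ) : ℚ)) ^ 2 := by
    intro a b
    have h1 := (factor_pos hM a b).le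
    have h2 := (factor_pos hM b a).le
    nlinarith [mul_nonneg h1 h2]
  refine Finset.prod_le_prod (fun a _ => ?_) fun a _ => ?_
  · rw [← Finset.prod_mul_distrib]
    exact Finset.prod_nonneg fun b _ => mul_nonneg (by positivity) (hnn a b)
  · rw [← Finset.prod_mul_distrib, ← Finset.prod_mul_distrib]
    refine Finset.prod_le_prod (fun b _ => mul_nonneg (by positivity) (hnn a b)) fun b _ => ?_
    have h3 : M ^ 2 ≤ L ^ 2 := by nlinarith
    nlinarith [mul_nonneg (sq_nonneg (((b : ℕ) : ℚ) - ((a : ℕ) : ℚ))) (sub_nonneg.mpr h3)]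

lemma kron_apply (w : Equiv.Perm (Fin n)) (k : ℕ) (x : Fin n) (a : Fin k) :
    kron w k (finProdFinEquiv (x, a)) = finProdFinEquiv (w x, a) := by
  simp [kron, Equiv.permCongr_apply]

lemma isGr_kron {w : Equiv.Perm (Fin n)} (hw : IsGr d w) (k : ℕ) : IsGr (d * k) (kron w k) := by
  have hmain : ∀ (x y : Fin n) (a b : Fin k), (w x < w y ∨ (x = y ∧ a < b)) →
      kron w k (finProdFinEquiv (x, a)) < kron w k (finProdFinEquiv (y, b)) := by
    intro x y a b h
    rw [kron_apply, kron_apply, Fin.lt_def, finProdFinEquiv_apply_val, finProdFinEquiv_apply_val]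
    simp only
    rcases h with h | ⟨rfl, h⟩
    · have h1 : (w x).val + 1 ≤ (w y).val := h
      have h2 := Nat.mul_le_mul_left k h1
      rw [Nat.mul_add, Nat.mul_one] at h2
      have := a.2
      omega
    · have : a.val < b.val := h
      omega
  have hsplit : ∀ (x y : Fin n) (a b : Fin k),
      finProdFinEquiv (x, a) < finProdFinEquiv (y, b) → x < y ∨ (x = y ∧ a < b) := by
    intro x y a b h
    rw [Fin.lt_def, finProdFinEquiv_apply_val, finProdFinEquiv_apply_val] at h
    simp only at h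
    rcases lt_trichotomy x y with h1 | h1 | h1
    · exact Or.inl h1
    · subst h1
      exact Or.inr ⟨rfl, by rw [Fin.lt_def]; omega⟩
    · exfalso
      have h2 : y.val + 1 ≤ x.val := h1
      have h3 := Nat.mul_le_mul_left k h2
      rw [Nat.mul_add, Nat.mul_one] at h3
      have := b.2
      omega
  constructor
  · intro X Y hXY hY
    obtain ⟨⟨x, a⟩, rfl⟩ := finProdFinEquiv.surjective X
    obtain ⟨⟨y, b⟩, rfl⟩ := finProdFinEquiv.surjective Y
    rw [finProdFinEquiv_apply_val] at hY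
    simp only at hY
    have hyd : y.val < d := by
      by_contra hc
      push Not at hc
      have := Nat.mul_le_mul_left k hc
      rw [Nat.mul_comm k d] at this
      omega
    rcases hsplit x y a b hXY with h | h
    · exact hmain x y a b (Or.inl (hw.1 x y h hyd))
    · exact hmain x y a b (Or.inr h)
  · intro X Y hXY hX
    obtain ⟨⟨x, a⟩, rfl⟩ := finProdFinEquiv.surjective X
    obtain ⟨⟨y, b⟩, rfl⟩ := finProdFinEquiv.surjective Y
    rw [finProdFinEquiv_apply_val] at hX
    simp only at hX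
    have hxd : d ≤ x.val := by
      by_contra hc
      push Not at hc
      have h1 : x.val + 1 ≤ d := hc
      have h2 := Nat.mul_le_mul_left k h1
      rw [Nat.mul_add, Nat.mul_one, Nat.mul_comm k d] at h2
      have := a.2
      omega
    rcases hsplit x y a b hXY with h | h
    · exact hmain x y a b (Or.inl (hw.2 x y h hxd))
    · exact hmain x y a b (Or.inr h)

lemma vals_kron (hd : d ≤ n) (w : Equiv.Perm (Fin n)) (k : ℕ) (hd' : d * k ≤ n * k)
    (i : Fin d) (a : Fin k) :
    vals hd' (kron w k) (finProdFinEquiv (i, a)) = ((a : ℕ) : ℚ) + (k : ℚ) * vals hd w i := by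
  have h1 : Fin.castLE hd' (finProdFinEquiv (i, a)) = finProdFinEquiv (Fin.castLE hd i, a) := by
    apply Fin.ext
    rw [Fin.val_castLE, finProdFinEquiv_apply_val, finProdFinEquiv_apply_val]
    simp
  unfold vals
  rw [h1, kron_apply, finProdFinEquiv_apply_val]
  push_cast
  rfl

lemma vals_gap (hd : d ≤ n) {w : Equiv.Perm (Fin n)} (hw : IsGr d w) {i j : Fin d} (hij : i < j) :
    ((j : ℕ) : ℚ) - ((i : ℕ) : ℚ) ≤ vals hd w j - vals hd w i := by
  have key : ∀ t : ℕ, ∀ h : i.val + t < d,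
      (w (Fin.castLE hd i)).val + t ≤ (w (Fin.castLE hd ⟨i.val + t, h⟩)).val := by
    intro t
    induction t with
    | zero => intro h; exact le_of_eq rfl
    | succ t ih =>
      intro h
      have h1 := ih (by omega)
      have h2 : w (Fin.castLE hd ⟨i.val + t, by omega⟩) <
          w (Fin.castLE hd ⟨i.val + (t + 1), h⟩) := by
        apply hw.1
        · rw [Fin.lt_def]
          simp only [Fin.val_castLE]
          omega
        · simp only [Fin.val_castLE]
          exact h
      rw [Fin.lt_def] at h2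
      omega
  have hlt : i.val < j.val := hij
  have h1 := key (j.val - i.val) (by omega)
  have h2 : (⟨i.val + (j.val - i.val), by omega⟩ : Fin d) = j := Fin.ext (by simp only; omega)
  rw [h2] at h1
  have h3 : ((w (Fin.castLE hd i)).val : ℚ) + ((j.val - i.val : ℕ) : ℚ) ≤
      ((w (Fin.castLE hd j)).val : ℚ) := by exact_mod_cast h1
  rw [Nat.cast_sub hlt.le] at h3
  unfold vals
  linarith

theorem grassmannian (hd : d ≤ n) {w : Equiv.Perm (Fin n)} (hw : IsGr d w) (k : ℕ) :
    Upsilon n w ^ (k ^ 2) ≤ Upsilon (n * k) (kron w k) := by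
  classical
  have hd' : d * k ≤ n * k := Nat.mul_le_mul_right k hd
  rw [Upsilon_gr hd hw, Upsilon_gr hd' (isGr_kron hw k), ratio_prod, ratio_prod,
    ← finProdFinEquiv.prod_comp, Fintype.prod_prod_type, ← Finset.prod_pow]
  have hH0 : ∀ i j : Fin d, 0 ≤
      (if i < j then (vals hd w j - vals hd w i) / (((j : ℕ) : ℚ) - ((i : ℕ) : ℚ)) else 1) := by
    intro i j
    split_ifs with h
    · have h1 := vals_gap hd hw h
      have h2 : ((i : ℕ) : ℚ) + 1 ≤ ((j : ℕ) : ℚ) := by exact_mod_cast h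
      apply div_nonneg <;> linarith
    · exact zero_le_one
  refine Finset.prod_le_prod
    (fun i _ => pow_nonneg (Finset.prod_nonneg fun j _ => hH0 i j) _) fun i _ => ?_
  rw [← Finset.prod_pow]
  have hcomm : ∏ a : Fin k, ∏ Y : Fin (d * k),
      (if finProdFinEquiv (i, a) < Y then
        (vals hd' (kron w k) Y - vals hd' (kron w k) (finProdFinEquiv (i, a))) /
          (((Y : ℕ) : ℚ) - (((finProdFinEquiv (i, a) : Fin (d * k)) : ℕ) : ℚ)) else 1) =
      ∏ j : Fin d, ∏ a : Fin k, ∏ b : Fin k,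
      (if finProdFinEquiv (i, a) < finProdFinEquiv (j, b) then
        (vals hd' (kron w k) (finProdFinEquiv (j, b)) -
          vals hd' (kron w k) (finProdFinEquiv (i, a))) /
          ((((finProdFinEquiv (j, b) : Fin (d * k)) : ℕ) : ℚ) -
            (((finProdFinEquiv (i, a) : Fin (d * k)) : ℕ) : ℚ)) else 1) := by
    symm
    rw [Finset.prod_comm]
    refine Finset.prod_congr rfl fun a _ => ?_
    symm
    rw [← finProdFinEquiv.prod_comp, Fintype.prod_prod_type]
  rw [hcomm]
  refine Finset.prod_le_prod (fun j _ => pow_nonneg (hH0 i j) _) fun j _ => ?_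
  by_cases hij : i < j
  · rw [if_pos hij]
    have hM : (1 : ℚ) ≤ ((j : ℕ) : ℚ) - ((i : ℕ) : ℚ) := by
      have h2 : ((i : ℕ) : ℚ) + 1 ≤ ((j : ℕ) : ℚ) := by exact_mod_cast hij
      linarith
    refine (pair_ineq (k := k) hM (vals_gap hd hw hij)).trans (le_of_eq ?_)
    refine Finset.prod_congr rfl fun a _ => Finset.prod_congr rfl fun b _ => ?_
    have hlt : (finProdFinEquiv (i, a) : Fin (d * k)) < finProdFinEquiv (j, b) := by
      rw [Fin.lt_def, finProdFinEquiv_apply_val, finProdFinEquiv_apply_val]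
      simp only
      have h1 : i.val + 1 ≤ j.val := hij
      have h2 := Nat.mul_le_mul_left k h1
      rw [Nat.mul_add, Nat.mul_one] at h2
      have := a.2
      omega
    rw [if_pos hlt, vals_kron hd, vals_kron hd, finProdFinEquiv_apply_val,
      finProdFinEquiv_apply_val]
    push_cast
    congr 1 <;> ring
  · rw [if_neg hij, one_pow]
    refine le_of_eq (Eq.symm ?_)
    refine Finset.prod_eq_one fun a _ => Finset.prod_eq_one fun b _ => ?_
    split_ifs with hlt
    · rw [Fin.lt_def, finProdFinEquiv_apply_val, finProdFinEquiv_apply_val] at hlt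
      simp only at hlt
      have hle : j.val ≤ i.val := not_lt.mp hij
      have hji : j = i := by
        apply Fin.ext
        by_contra hne
        have h1 : j.val + 1 ≤ i.val := by omega
        have h2 := Nat.mul_le_mul_left k h1
        rw [Nat.mul_add, Nat.mul_one] at h2
        have := b.2
        omega
      subst hji
      have hab : a.val < b.val := by omega
      have hab' : ((a : ℕ) : ℚ) < ((b : ℕ) : ℚ) := by exact_mod_cast hab
      rw [vals_kron hd, vals_kron hd, finProdFinEquiv_apply_val, finProdFinEquiv_apply_val]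
      push_cast
      rw [add_sub_add_right_eq_sub, add_sub_add_right_eq_sub, div_self]
      linarith
    · rfl

end Pool.Agent.Grass
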