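import Mathlib
import Pool.Agent.Grass.Ineq

namespace Pool.Agent.Grass

open Finset

variable {n d : ℕ}

lemma len_inv (w : Equiv.Perm (Fin n)) : len w⁻¹ = len w := by
  classical
  unfold len
  refine Finset.card_bij (fun p _ => (w⁻¹ p.2, w⁻¹ p.1)) ?_ ?_ ?_
  · rintro ⟨a, b⟩ h
    unfold invSet at h ⊢
    simp only [Finset.mem_filter, Finset.mem_univ, true_and] at h ⊢
    refine ⟨h.2, ?_⟩
    rw [show w (w⁻¹ a) = a from w.apply_symm_apply a, show w (w⁻¹ b) = b from w.apply_symm_apply b]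
    exact h.1
  · rintro ⟨a, b⟩ _ ⟨c, e⟩ _ h
    simp only [Prod.mk.injEq, EmbeddingLike.apply_eq_iff_eq] at h
    rw [h.1, h.2]
  · rintro ⟨a, b⟩ h
    refine ⟨(w b, w a), ?_, ?_⟩
    · unfold invSet at h ⊢
      simp only [Finset.mem_filter, Finset.mem_univ, true_and] at h ⊢
      refine ⟨h.2, ?_⟩
      rw [show w⁻¹ (w a) = a from w.symm_apply_apply a,
        show w⁻¹ (w b) = b from w.symm_apply_apply b]
      exact h.1
    · simp only [Prod.mk.injEq]
      exact ⟨w.symm_apply_apply a, w.symm_apply_apply b⟩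

lemma ofFn_rev {α : Type*} {m : ℕ} (f : Fin m → α) :
    List.ofFn (fun i => f (Fin.rev i)) = (List.ofFn f).reverse := by
  apply List.ext_getElem
  · simp
  · intro i h1 h2
    rw [List.getElem_reverse]
    simp only [List.getElem_ofFn, List.length_ofFn]
    congr 1
    apply Fin.ext
    simp [Fin.val_rev]
    omega

lemma wordSum_inv (m : ℕ) (w : Equiv.Perm (Fin n)) : wordSum n m w⁻¹ = wordSum n m w := by
  classical
  unfold wordSum
  refine Finset.sum_equiv (Equiv.arrowCongr Fin.revPerm (Equiv.refl (Fin n × Fin n))) ?_ ?_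
  · intro a
    simp only [Finset.mem_filter, Finset.mem_univ, true_and, Equiv.arrowCongr_apply,
      Function.comp_apply, Equiv.refl_apply, Fin.revPerm_symm, Fin.revPerm_apply]
    have h1 : (List.ofFn fun i => Equiv.swap (a (Fin.rev i)).1 (a (Fin.rev i)).2).prod =
        ((List.ofFn fun i => Equiv.swap (a i).1 (a i).2).prod)⁻¹ := by
      rw [ofFn_rev (fun i => Equiv.swap (a i).1 (a i).2), List.prod_reverse_noncomm, List.map_ofFn]
      congr 3
    rw [h1]
    constructor
    · rintro ⟨h2, h3⟩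
      exact ⟨fun i => h2 _, by rw [h3, inv_inv]⟩
    · rintro ⟨h2, h3⟩
      refine ⟨fun i => ?_, by rw [← h3, inv_inv]⟩
      have := h2 (Fin.rev i)
      rwa [Fin.rev_rev] at this
  · intro a _
    simp only [Equiv.arrowCongr_apply, Function.comp_apply, Equiv.refl_apply, Fin.revPerm_symm]
    exact (Equiv.prod_comp Fin.revPerm (fun i => (((a i).1.val : ℚ) + 1))).symm

lemma Upsilon_inv (w : Equiv.Perm (Fin n)) : Upsilon n w⁻¹ = Upsilon n w := by
  unfold Upsilon
  rw [wordSum_inv, len_inv]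

lemma kron_inv (w : Equiv.Perm (Fin n)) (k : ℕ) : kron w⁻¹ k = (kron w k)⁻¹ := by
  apply Equiv.ext
  intro X
  obtain ⟨⟨x, a⟩, rfl⟩ := finProdFinEquiv.surjective X
  rw [kron_apply, eq_comm, Equiv.Perm.inv_eq_iff_eq, kron_apply]
  rw [show w (w⁻¹ x) = x from w.apply_symm_apply x]

end Pool.Agent.Grass
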